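import Pool.Agent.H178R3.PosEmbed

/-!
# Quasi-identities in completions of posets of regions

* No nontrivial lattice quasi-identity holds in `DM(H, B)` for all central hyperplane arrangements
  `H` (in all dimensions) and all base regions `B`.  (In particular no nontrivial lattice identity
  does.)
* For every fixed dimension `d ≥ 1` there is a nontrivial lattice quasi-identity that holds in
  `DM(H, B)` for every central arrangement `H` in `ℝ^d` and every base region `B`.
-/

set_option autoImplicit false

open Set Pool.Agent.H178R3 Pool.Agent.H178R3.CentralArrangement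

namespace Pool.Agent.Results.MP_88c4e5_co.QuasiIdentities

universe u

/-- Lattice terms, in the language `(∨, ∧)`, over the variables `x 0, x 1, …`. -/
inductive LTerm where
  /-- the variable `x i` -/
  | var (i : ℕ) : LTerm
  /-- the join of two terms -/
  | sup (s t : LTerm) : LTerm
  /-- the meet of two terms -/
  | inf (s t : LTerm) : LTerm

/-- The value of a lattice term in a lattice, for given values of the variables. -/
def LTerm.eval {L : Type*} [Lattice L] (v : ℕ → L) : LTerm → L
  | .var i => v i
  | .sup s t => s.eval v ⊔ t.eval v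
  | .inf s t => s.eval v ⊓ t.eval v

/-- A quasi-identity `(p₁ = q₁ & … & pₖ = qₖ) ⇒ p = q` between lattice terms. A lattice identity
`p = q` is the case of an empty list of premises. -/
structure QuasiIdentity where
  /-- the premises -/
  premises : List (LTerm × LTerm)
  /-- the left side of the conclusion -/
  lhs : LTerm
  /-- the right side of the conclusion -/
  rhs : LTerm

/-- The quasi-identity holds in the lattice `L`. -/
def QuasiIdentity.HoldsIn (q : QuasiIdentity) (L : Type*) [Lattice L] : Prop :=
  ∀ v : ℕ → L, (∀ e ∈ q.premises, e.1.eval v = e.2.eval v) → q.lhs.eval v = q.rhs.eval v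

/-- The quasi-identity is nontrivial: it fails in some lattice. -/
def QuasiIdentity.Nontrivial (q : QuasiIdentity) : Prop :=
  ∃ (L : Type u) (_ : Lattice L), ¬ q.HoldsIn L

/-- The set of values of the subterms of a term. -/
def LTerm.vals {L : Type*} [Lattice L] (v : ℕ → L) : LTerm → Set L
  | .var i => {v i}
  | .sup s t => insert (s.eval v ⊔ t.eval v) (s.vals v ∪ t.vals v)
  | .inf s t => insert (s.eval v ⊓ t.eval v) (s.vals v ∪ t.vals v)

theorem LTerm.vals_finite {L : Type*} [Lattice L] (v : ℕ → L) (t : LTerm) :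
    (t.vals v).Finite := by
  induction t with
  | var i => exact Set.finite_singleton _
  | sup s t hs ht => exact (hs.union ht).insert _
  | inf s t hs ht => exact (hs.union ht).insert _

theorem LTerm.eval_mem_vals {L : Type*} [Lattice L] (v : ℕ → L) (t : LTerm) :
    t.eval v ∈ t.vals v := by
  cases t with
  | var i => exact Set.mem_singleton _
  | sup s t => exact Set.mem_insert _ _
  | inf s t => exact Set.mem_insert _ _

/-- A map that preserves the joins and meets inside a finite set commutes with the evaluation of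
terms all of whose subterms have values in that set. -/
theorem LTerm.eval_map {L M : Type*} [Lattice L] [Lattice M] {n : ℕ} {z : Fin n → L} {F : L → M}
    (hsup : ∀ x y w, z w = z x ⊔ z y → F (z w) = F (z x) ⊔ F (z y))
    (hinf : ∀ x y w, z w = z x ⊓ z y → F (z w) = F (z x) ⊓ F (z y))
    (v : ℕ → L) (t : LTerm) (ht : t.vals v ⊆ Set.range z) :
    t.eval (fun i => F (v i)) = F (t.eval v) := by
  induction t with
  | var i => rfl
  | sup s t hs ht' =>
    have h1 : s.vals v ⊆ Set.range z := (subset_union_left.trans (subset_insert _ _)).trans ht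
    have h2 : t.vals v ⊆ Set.range z := (subset_union_right.trans (subset_insert _ _)).trans ht
    obtain ⟨x, hx⟩ := h1 (s.eval_mem_vals v)
    obtain ⟨y, hy⟩ := h2 (t.eval_mem_vals v)
    obtain ⟨w, hw⟩ := ht ((LTerm.sup s t).eval_mem_vals v)
    have e := hsup x y w (by rw [hx, hy, hw]; rfl)
    show s.eval _ ⊔ t.eval _ = F ((LTerm.sup s t).eval v)
    rw [hs h1, ht' h2, ← hw, e, hx, hy]
  | inf s t hs ht' =>
    have h1 : s.vals v ⊆ Set.range z := (subset_union_left.trans (subset_insert _ _)).trans ht
    have h2 : t.vals v ⊆ Set.range z := (subset_union_right.trans (subset_insert _ _)).trans ht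
    obtain ⟨x, hx⟩ := h1 (s.eval_mem_vals v)
    obtain ⟨y, hy⟩ := h2 (t.eval_mem_vals v)
    obtain ⟨w, hw⟩ := ht ((LTerm.inf s t).eval_mem_vals v)
    have e := hinf x y w (by rw [hx, hy, hw]; rfl)
    show s.eval _ ⊓ t.eval _ = F ((LTerm.inf s t).eval v)
    rw [hs h1, ht' h2, ← hw, e, hx, hy]

/-- Every quasi-identity that fails in some lattice fails in the completion of some poset of
regions. -/
theorem fails_in_completion (q : QuasiIdentity) (hq : q.Nontrivial.{u}) :
    ∃ (d : ℕ) (_ : 1 ≤ d) (A : CentralArrangement d) (B : A.Region),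
      ¬ q.HoldsIn (DedekindCut (Pos A B)) := by
  classical
  obtain ⟨L, _, hL⟩ := hq
  unfold QuasiIdentity.HoldsIn at hL
  push Not at hL
  obtain ⟨v, hv, hne⟩ := hL
  let T : Set L := q.lhs.vals v ∪ q.rhs.vals v ∪
    ⋃ e ∈ q.premises.toFinset, (e.1.vals v ∪ e.2.vals v)
  have hT : T.Finite := by
    refine ((LTerm.vals_finite v _).union (LTerm.vals_finite v _)).union ?_
    exact (Finset.finite_toSet _).biUnion fun e _ =>
      (LTerm.vals_finite v _).union (LTerm.vals_finite v _)
  let z : Fin hT.toFinset.card → L := fun i => (hT.toFinset.equivFin.symm i : L)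
  have hz : Set.range z = T := by
    ext a
    constructor
    · rintro ⟨i, rfl⟩
      exact hT.mem_toFinset.1 (hT.toFinset.equivFin.symm i).2
    · intro ha
      exact ⟨hT.toFinset.equivFin ⟨a, hT.mem_toFinset.2 ha⟩, by simp [z]⟩
  have hl : q.lhs.vals v ⊆ Set.range z := by
    rw [hz]; exact subset_union_left.trans subset_union_left
  have hr : q.rhs.vals v ⊆ Set.range z := by
    rw [hz]; exact subset_union_right.trans subset_union_left
  have hp : ∀ e ∈ q.premises, e.1.vals v ⊆ Set.range z ∧ e.2.vals v ⊆ Set.range z := by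
    intro e he
    rw [hz]
    have : e.1.vals v ∪ e.2.vals v ⊆ T := by
      apply subset_union_of_subset_right
      exact subset_biUnion_of_mem (u := fun e : LTerm × LTerm => e.1.vals v ∪ e.2.vals v)
        (List.mem_toFinset.2 he)
    exact ⟨subset_union_left.trans this, subset_union_right.trans this⟩
  obtain ⟨k, hk⟩ := hl (q.lhs.eval_mem_vals v)
  obtain ⟨l, hlr⟩ := hr (q.rhs.eval_mem_vals v)
  obtain ⟨A, B, F, hle, hsup, hinf⟩ := exists_embedding k.pos z
  refine ⟨_, Nat.succ_le_succ (Nat.zero_le _), A, B, fun hold => hne ?_⟩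
  have h1 := hold (fun i => F (v i)) (fun e he => by
    rw [LTerm.eval_map hsup hinf v _ (hp e he).1, LTerm.eval_map hsup hinf v _ (hp e he).2,
      hv e he])
  rw [LTerm.eval_map hsup hinf v _ hl, LTerm.eval_map hsup hinf v _ hr, ← hk, ← hlr] at h1
  rw [← hk, ← hlr]
  exact le_antisymm ((hle k l).1 h1.le) ((hle l k).1 h1.ge)

/-- The quasi-identity that excludes the lattice `M_n` of length two with `n` atoms: if the joins
`x i ∨ x j` (`i ≠ j`, `i, j < n`) all equal `x n` and the meets `x i ∧ x j` all equal `x (n + 1)`,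
then `x n = x (n + 1)`. -/
def noM (n : ℕ) : QuasiIdentity where
  premises := (List.range n).flatMap fun i => (List.range n).flatMap fun j =>
    if i = j then [] else
      [(.sup (.var i) (.var j), .var n), (.inf (.var i) (.var j), .var (n + 1))]
  lhs := .var n
  rhs := .var (n + 1)

theorem noM_holdsIn {n : ℕ} {L : Type*} [Lattice L]
    (h : ∀ (x : Fin n → L) (u v : L), (∀ i j, i ≠ j → x i ⊔ x j = u) →
      (∀ i j, i ≠ j → x i ⊓ x j = v) → u = v) : (noM n).HoldsIn L := by
  intro v hv
  apply h (fun i => v i) (v n) (v (n + 1))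
  · intro i j hij
    apply hv (.sup (.var i) (.var j), .var n)
    simp only [noM, List.mem_flatMap, List.mem_range]
    refine ⟨i, i.2, j, j.2, ?_⟩
    rw [if_neg (fun h => hij (Fin.ext h))]
    simp
  · intro i j hij
    apply hv (.inf (.var i) (.var j), .var (n + 1))
    simp only [noM, List.mem_flatMap, List.mem_range]
    refine ⟨i, i.2, j, j.2, ?_⟩
    rw [if_neg (fun h => hij (Fin.ext h))]
    simp

theorem noM_nontrivial (n : ℕ) : (noM n).Nontrivial.{0} := by
  refine ⟨Submodule ℚ (ℚ × ℚ), inferInstance, fun h => ?_⟩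
  let v : ℕ → Submodule ℚ (ℚ × ℚ) := fun i =>
    if i < n then Submodule.span ℚ {((1 : ℚ), (i : ℚ))} else if i = n then ⊤ else ⊥
  have hlt : ∀ i, i < n → v i = Submodule.span ℚ {((1 : ℚ), (i : ℚ))} := fun i hi => if_pos hi
  have hn : v n = ⊤ := by simp [v]
  have hn1 : v (n + 1) = ⊥ := by simp [v]
  have hsup : ∀ i j, i < n → j < n → i ≠ j → v i ⊔ v j = ⊤ := by
    intro i j hi hj hij
    rw [hlt i hi, hlt j hj, eq_top_iff]
    rintro ⟨a, b⟩ _
    have hij' : ((j : ℚ) - i) ≠ 0 := by
      rw [sub_ne_zero]
      exact_mod_cast hij.symm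
    rw [Submodule.mem_sup]
    refine ⟨(a - (b - a * i) / (j - i)) • ((1 : ℚ), (i : ℚ)),
      Submodule.smul_mem _ _ (Submodule.subset_span rfl),
      ((b - a * i) / (j - i)) • ((1 : ℚ), (j : ℚ)),
      Submodule.smul_mem _ _ (Submodule.subset_span rfl), ?_⟩
    ext
    · simp
    · simp only [Prod.smul_mk, smul_eq_mul, mul_one, Prod.mk_add_mk]
      field_simp
      ring
  have hinf : ∀ i j, i < n → j < n → i ≠ j → v i ⊓ v j = ⊥ := by
    intro i j hi hj hij
    rw [hlt i hi, hlt j hj, eq_bot_iff]
    rintro ⟨a, b⟩ ⟨h1, h2⟩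
    obtain ⟨s, hs⟩ := Submodule.mem_span_singleton.1 h1
    obtain ⟨t, ht⟩ := Submodule.mem_span_singleton.1 h2
    simp only [Prod.smul_mk, smul_eq_mul, mul_one, Prod.mk.injEq] at hs ht
    have hij' : ((i : ℚ) - j) ≠ 0 := by
      rw [sub_ne_zero]
      exact_mod_cast hij
    have ha : a * ((i : ℚ) - j) = 0 := by
      rw [mul_sub]
      have e1 : a * (i : ℚ) = b := by rw [← hs.1]; exact hs.2
      have e2 : a * (j : ℚ) = b := by rw [← ht.1]; exact ht.2
      rw [e1, e2, sub_self]
    have ha0 : a = 0 := by
      rcases mul_eq_zero.1 ha with h | h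
      · exact h
      · exact absurd h hij'
    have hb0 : b = 0 := by rw [← hs.2, hs.1, ha0, zero_mul]
    rw [ha0, hb0]
    exact Submodule.zero_mem _
  have h1 := h v (by
    intro e he
    simp only [noM, List.mem_flatMap, List.mem_range] at he
    obtain ⟨i, hi, j, hj, he⟩ := he
    by_cases hij : i = j
    · rw [if_pos hij] at he
      simp at he
    · rw [if_neg hij] at he
      simp only [List.mem_cons, List.not_mem_nil, or_false] at he
      rcases he with rfl | rfl
      · show v i ⊔ v j = v n
        rw [hsup i j hi hj hij, hn]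
      · show v i ⊓ v j = v (n + 1)
        rw [hinf i j hi hj hij, hn1])
  have h2 : v n = v (n + 1) := h1
  rw [hn, hn1] at h2
  exact top_ne_bot h2

/-- **Answer to Q2.** No nontrivial quasi-identity holds in `DM(H, B)` for all central arrangements
`H` in all dimensions; but for each fixed dimension `d ≥ 1` there is a nontrivial quasi-identity
that holds in `DM(H, B)` for all central arrangements `H` in `ℝ^d` and all base regions `B`. -/
theorem result :
    (∀ q : QuasiIdentity, q.Nontrivial.{u} →
      ∃ (d : ℕ) (_ : 1 ≤ d) (A : CentralArrangement d) (B : A.Region),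
        ¬ q.HoldsIn (DedekindCut (Pos A B))) ∧
    (∀ d : ℕ, 1 ≤ d → ∃ q : QuasiIdentity, q.Nontrivial.{0} ∧
      ∀ (A : CentralArrangement d) (B : A.Region), q.HoldsIn (DedekindCut (Pos A B))) := by
  refine ⟨fails_in_completion, fun d _ => ⟨noM (d + 3), noM_nontrivial _, fun A B => ?_⟩⟩
  obtain ⟨b, vec, N⟩ := exists_normals B
  exact noM_holdsIn fun x u v hsup hinf => collapse N x u v hsup hinf

end Pool.Agent.Results.MP_88c4e5_co.QuasiIdentities
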